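import Pool.Agent.H21bl.RE.Fun
import Pool.Agent.W235.RM.Final

/-!
Entire curves with radical coordinates.
-/

set_option autoImplicit false

namespace Pool.Agent.H21bl.RE

open Filter Topology Metric Set MvPolynomial Module
open Pool.Agent.Y192.OG Pool.Agent.Y192.KC Pool.Agent.W603.BP Pool.Agent.Y220.KG
open Pool.Agent.H159R3.NV (Ent ev_ne)
open Pool.Agent.H159R3.Exp (Laur ExpType ExpCurvesIn FinitelyManyIntegral comp_ne)
open Pool.Agent.W235.RM
open Pool.Agent.Y742.DI Pool.Agent.N754.LT
open scoped NumberField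

variable {n : ℕ}

/-- The entire curve `f` is radical: for some nonconstant entire function `h` (for instance the
identity) all coordinates of `f ∘ h` are radical functions. -/
def RadType (f : ℂ → Fin n → ℂ) : Prop :=
  Differentiable ℂ f ∧ ∃ h : ℂ → ℂ, Differentiable ℂ h ∧ (∃ z w, h z ≠ h w) ∧
    ∀ j, RadFun fun z => f (h z) j

/-- Condition (i) for the radical entire curves. -/
def RadCurvesIn {K : Type} [Field K] {ι κ : Type} (σ : K →+* ℂ)
    (F : ι → MvPolynomial (Fin n) (𝓞 K)) (G : κ → MvPolynomial (Fin n) (𝓞 K)) : Prop :=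
  ∀ f : ℂ → Fin n → ℂ, RadType f →
    (∀ z i, eval₂ (σ.comp (algebraMap (𝓞 K) K)) (f z) (F i) = 0) → (∃ z w, f z ≠ f w) →
    ∀ z j, eval₂ (σ.comp (algebraMap (𝓞 K) K)) (f z) (G j) = 0

/-- Laurent curves through the points of a curve with radical coordinates -/
theorem rad_curve {ι : Type} (F : ι → MvPolynomial (Fin n) ℂ) (f : ℂ → Fin n → ℂ)
    (hf : Differentiable ℂ f) (hrad : ∀ j, RadFun fun z => f z j)
    (hF : ∀ z i, eval (f z) (F i) = 0) (hnc : ∃ z w, f z ≠ f w) :
    {z | ¬ ∃ v : ℂ → Fin n → ℂ, (∀ j, Laur fun s => v s j) ∧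
      (∀ i s, s ≠ 0 → eval (v s) (F i) = 0) ∧ v 1 = f z ∧ v 2 ≠ v 1}.Countable := by
  classical
  have hfj : ∀ j, Differentiable ℂ (fun z => f z j) := fun j => by
    rw [differentiable_pi] at hf
    exact hf j
  let fE : Fin n → Ent := fun j =>
    ⟨fun z => f (Complex.exp z) j, (hfj j).comp Complex.differentiable_exp⟩
  choose A B hA hB hB0 hc using fun j => rad_struct (hrad j)
  have hAB : ∀ j, B j * fE j = A j := by
    intro j
    apply Subtype.ext
    funext z
    show (B j : ℂ → ℂ) z * f (Complex.exp z) j = (A j : ℂ → ℂ) z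
    exact eq_of_countable ((B j).2.mul ((hfj j).comp Complex.differentiable_exp)).continuous
      (A j).2.continuous (hc j) z
  obtain ⟨r, w, hw, N, p, hp⟩ := ep_rep (Sum.elim A B) (by
    rintro (i | i)
    · exact hA i
    · exact hB i)
  let L : MvPolynomial (Fin r) ℂ → Lau r :=
    fun p => aeval (fun j => AddMonoidAlgebra.single (Pi.single j 1 : Fin r → ℤ) (1 : ℂ)) p
  have hL : ∀ p, evE w (L p) = aeval (fun j => (w j : Ent)) p := fun p => evE_comp w p
  have hu : ∀ x : Ent, (∏ j, (w j : Ent)) ^ N * x = 0 → x = 0 := by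
    intro x hx
    rw [← Units.coe_prod, ← Units.val_pow_eq_pow_val] at hx
    exact (Units.mul_right_eq_zero _).1 hx
  have hFE : ∀ l, aeval fE (F l) = 0 := by
    intro l
    apply Subtype.ext
    funext z
    rw [val_aeval']
    exact hF (Complex.exp z) l
  have hncE : ∃ i, ∀ c : ℂ, fE i ≠ algebraMap ℂ Ent c := by
    by_contra hcon
    push Not at hcon
    choose c hc using hcon
    obtain ⟨a, b, hab⟩ := hnc
    apply hab
    have h1 : ∀ z, f z = c := by
      intro z
      refine congrFun (Continuous.ext_on (dense_compl_singleton (0 : ℂ)) hf.continuous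
        continuous_const fun y hy => ?_) z
      funext j
      have h2 : f (Complex.exp (Complex.log y)) j = c j :=
        congrFun (congrArg Subtype.val (hc j)) (Complex.log y)
      rw [Complex.exp_log hy] at h2
      exact h2
    rw [h1, h1]
  have key := curve_thm F fE hFE hncE
  have hS : {t : ℂ | ¬ ∃ v : ℂ → Fin n → ℂ, (∀ j, Laur fun s => v s j) ∧
      (∀ i s, s ≠ 0 → eval (v s) (F i) = 0) ∧ v 1 = f (Complex.exp t) ∧ v 2 ≠ v 1}.Countable := by
    refine (HereditarilyLindelofSpace.isLindelof _).countable_of_isDiscrete ?_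
    rw [isDiscrete_iff_nhdsNE]
    intro z0 _
    rw [← disjoint_iff, Filter.disjoint_principal_right]
    filter_upwards [key z0 r w hw (fun j => L (p (Sum.inl j))) (fun j => L (p (Sum.inr j)))
      (fun j h0 => hB0 j (hu _ (by
        have h1 := hp (Sum.inr j)
        rw [Sum.elim_inr] at h1
        rw [h1, ← hL, h0, map_zero])))
      (fun j => by
        rw [hL, hL, ← hp, ← hp, Sum.elim_inl, Sum.elim_inr, mul_assoc, hAB])] with t ht hcon
    obtain ⟨v, h1, h2, h3, j, h4⟩ := ht
    exact hcon ⟨v, h1, h2, h3, fun h => h4 (by rw [h])⟩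
  refine ((hS.image Complex.exp).union (Set.countable_singleton (0 : ℂ))).mono ?_
  intro z hz
  by_cases hz0 : z = 0
  · exact Or.inr hz0
  · left
    refine ⟨Complex.log z, ?_, Complex.exp_log hz0⟩
    show ¬ _
    rw [Complex.exp_log hz0]
    exact hz

theorem RadFun.sum {ι : Type} (s : Finset ι) (f : ι → ℂ → ℂ) (h : ∀ i ∈ s, RadFun (f i)) :
    RadFun fun z => ∑ i ∈ s, f i z := by
  classical
  induction s using Finset.induction_on with
  | empty => simpa using RadFun.const 0
  | insert i s hi ih =>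
    simp only [Finset.sum_insert hi]
    exact (h i (Finset.mem_insert_self _ _)).add
      (ih fun j hj => h j (Finset.mem_insert_of_mem hj))

theorem RadFun.eval {m : ℕ} {x : ℂ → Fin m → ℂ} (hx : ∀ j, RadFun fun z => x z j)
    (P : MvPolynomial (Fin m) ℂ) : RadFun fun z => MvPolynomial.eval (x z) P := by
  induction P using MvPolynomial.induction_on with
  | C a => simpa using RadFun.const a
  | add p q hp hq => simpa using hp.add hq
  | mul_X p i hp => simpa using hp.mul (hx i)

theorem rad_of_exp {f : ℂ → Fin n → ℂ} (hf : ExpType f) : RadType f := by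
  obtain ⟨h1, h, h2, h3, m, g, P, hg, hP⟩ := hf
  refine ⟨h1, h, h2, h3, fun j => ?_⟩
  have h4 : (fun z => f (h z) j) =
      fun z => eval (Fin.cons z fun i => Complex.exp (g i z) : Fin (m + 1) → ℂ) (P j) :=
    funext fun z => hP z j
  rw [h4]
  refine RadFun.eval (x := fun z => (Fin.cons z fun i => Complex.exp (g i z) :
    Fin (m + 1) → ℂ)) (fun i => ?_) (P j)
  refine Fin.cases ?_ (fun i => ?_) i
  · exact RadFun.id
  · exact RadFun.exp (hg i)

variable {K : Type} [Field K] {ι κ : Type} (σ : K →+* ℂ)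
  (F : ι → MvPolynomial (Fin n) (𝓞 K)) (G : κ → MvPolynomial (Fin n) (𝓞 K))

theorem exp_of_rad (h : RadCurvesIn σ F G) : ExpCurvesIn σ F G :=
  fun f hf => h f (rad_of_exp hf)

theorem rad_of_entire (h : EntireCurvesIn σ F G) : RadCurvesIn σ F G :=
  fun f hf => h f hf.1

theorem rad_of_gm (hG : GmCurvesIn σ F G) : RadCurvesIn σ F G := by
  intro f ⟨hf, h, hh, hhc, hrad⟩ hF hnc z l
  set φ : 𝓞 K →+* ℂ := σ.comp (algebraMap (𝓞 K) K) with hφ
  have hev : ∀ (z : Fin n → ℂ) (P : MvPolynomial (Fin n) (𝓞 K)), eval z (map φ P) = eval₂ φ z P :=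
    fun z P => by rw [eval_map]
  have hfj : ∀ j, Differentiable ℂ (fun z => f z j) := fun j => by
    rw [differentiable_pi] at hf
    exact hf j
  -- the composed curve
  have hnc' : ∃ z w, f (h z) ≠ f (h w) := by
    by_contra hcon
    push Not at hcon
    obtain ⟨a, b, hab⟩ := hnc
    apply hab
    have h1 : ∀ y j, f y j = f (h 0) j := by
      intro y j
      by_contra hne
      obtain ⟨z, hz⟩ := comp_ne (F := fun z => f z j - f (h 0) j) ((hfj j).sub_const _)
        ⟨y, sub_ne_zero.2 hne⟩ hh hhc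
      apply hz
      show f (h z) j - f (h 0) j = 0
      rw [hcon z 0, sub_self]
    funext j
    rw [h1 a, h1 b]
  have h1 := rad_curve (fun i => map φ (F i)) (fun z => f (h z)) (hf.comp hh) hrad
    (fun z i => by rw [hev]; exact hF (h z) i) hnc'
  have h2 : ∀ z, eval₂ φ (f (h z)) (G l) = 0 := by
    intro z
    have h3 : Differentiable ℂ fun z => eval₂ φ (f (h z)) (G l) := by
      have h4 : (fun z => eval₂ φ (f (h z)) (G l)) = fun z => eval (f (h z)) (map φ (G l)) :=
        funext fun z => (hev _ _).symm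
      rw [h4]
      exact Pool.Agent.H159R3.Exp.differentiable_eval (hf.comp hh) _
    refine eq_of_countable h3.continuous continuous_const (g := fun _ => 0) (h1.mono ?_) z
    intro y hy hcon
    obtain ⟨v, k1, k2, k3, k4⟩ := hcon
    apply hy
    show eval₂ φ (f (h y)) (G l) = 0
    rw [← k3]
    exact hG v k1 (fun i t ht => by rw [← hev]; exact k2 i t ht)
      ⟨2, 1, two_ne_zero, one_ne_zero, k4⟩ l 1 one_ne_zero
  by_contra hne
  have h3 : Differentiable ℂ fun z => eval₂ φ (f z) (G l) := by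
    have h4 : (fun z => eval₂ φ (f z) (G l)) = fun z => eval (f z) (map φ (G l)) :=
      funext fun z => (hev _ _).symm
    rw [h4]
    exact Pool.Agent.H159R3.Exp.differentiable_eval hf _
  obtain ⟨y, hy⟩ := comp_ne h3 ⟨z, hne⟩ hh hhc
  exact hy (h2 y)

/-- Every coordinate function has no zeros on `V(ℂ)`, or is, on the complement of `V'`, a root of a
rational function in the coordinates before it: `Q x_j ^ e = P` on `V(ℂ)`, where `P` and `Q` are
polynomials in the coordinates before `x_j` and `Q` has no zeros on `V(ℂ)` outside `V'(ℂ)`. -/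
def Tower : Prop :=
  ∀ j : Fin n, (∀ z : Fin n → ℂ, (∀ i, eval₂ (σ.comp (algebraMap (𝓞 K) K)) z (F i) = 0) → z j ≠ 0) ∨
    ∃ (e : ℕ) (P Q : MvPolynomial (Fin n) ℂ), 0 < e ∧ (∀ i ∈ P.vars, i < j) ∧
      (∀ i ∈ Q.vars, i < j) ∧
      ∀ z : Fin n → ℂ, (∀ i, eval₂ (σ.comp (algebraMap (𝓞 K) K)) z (F i) = 0) →
        eval z Q * z j ^ e = eval z P ∧
        ((∃ l, eval₂ (σ.comp (algebraMap (𝓞 K) K)) z (G l) ≠ 0) → eval z Q ≠ 0)

theorem RadFun.eval_vars {x : ℂ → Fin n → ℂ} (P : MvPolynomial (Fin n) ℂ)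
    (hx : ∀ j ∈ P.vars, RadFun fun z => x z j) : RadFun fun z => MvPolynomial.eval (x z) P := by
  classical
  have h1 : (fun z => MvPolynomial.eval (x z) P) =
      fun z => MvPolynomial.eval (fun j => if j ∈ P.vars then x z j else 0) P := by
    funext z
    refine MvPolynomial.eval₂Hom_congr' rfl (fun i hi _ => ?_) rfl
    rw [if_pos hi]
  rw [h1]
  refine RadFun.eval (fun j => ?_) P
  by_cases hj : j ∈ P.vars
  · simpa [hj] using hx j hj
  · simpa [hj] using RadFun.const 0

/-- entire curves in towers are radical -/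
theorem rad_of_tower (ht : Tower σ F G) (f : ℂ → Fin n → ℂ) (hf : Differentiable ℂ f)
    (hF : ∀ z i, eval₂ (σ.comp (algebraMap (𝓞 K) K)) (f z) (F i) = 0)
    (hG : ∃ z l, eval₂ (σ.comp (algebraMap (𝓞 K) K)) (f z) (G l) ≠ 0) (j : Fin n) :
    RadFun fun z => f z j := by
  have hfj : ∀ j, Differentiable ℂ (fun z => f z j) := fun j => by
    rw [differentiable_pi] at hf
    exact hf j
  induction hk : j.1 using Nat.strong_induction_on generalizing j with
  | _ k ih =>
  subst hk
  rcases ht j with h | ⟨e, P, Q, he, hP, hQ, h⟩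
  · obtain ⟨g, hg, hgf⟩ := entire_log (hfj j) fun z => h (f z) (hF z)
    have h1 : (fun z => f z j) = fun z => Complex.exp (g z) := funext hgf
    rw [h1]
    exact RadFun.exp hg
  · have hPr : RadFun fun z => MvPolynomial.eval (f z) P :=
      RadFun.eval_vars P fun i hi => ih i.1 (hP i hi) i rfl
    have hQr : RadFun fun z => MvPolynomial.eval (f z) Q :=
      RadFun.eval_vars Q fun i hi => ih i.1 (hQ i hi) i rfl
    refine RadFun.root he (hPr.div hQr) (fun z => ((hfj j).analyticAt z).meromorphicAt) ?_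
    obtain ⟨z0, l, hl⟩ := hG
    have h2 : {z | MvPolynomial.eval (f z) Q = 0}.Countable :=
      zeros_countable (Pool.Agent.H159R3.Exp.differentiable_eval hf Q)
        ⟨z0, (h (f z0) (hF z0)).2 ⟨l, hl⟩⟩
    refine h2.mono fun z hz => ?_
    by_contra h0
    apply hz
    have h3 : MvPolynomial.eval (f z) Q ≠ 0 := h0
    rw [eq_div_iff h3, mul_comm]
    exact (h (f z) (hF z)).1

theorem entire_of_tower (ht : Tower σ F G) (h : RadCurvesIn σ F G) : EntireCurvesIn σ F G := by
  intro f hf hF hnc z l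
  by_contra hne
  exact hne (h f ⟨hf, fun z => z, differentiable_id, ⟨0, 1, zero_ne_one⟩,
    rad_of_tower σ F G ht f hf hF ⟨z, l, hne⟩⟩ hF hnc z l)

end Pool.Agent.H21bl.RE
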