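import Pool.Agent.H21bl.RE.Root

/-!
Laurent curves through the values of entire functions which are quotients of linear combinations
of functions without zeros.
-/

set_option autoImplicit false

namespace Pool.Agent.H21bl.RE

open Filter Topology Metric Set MvPolynomial Module
open Pool.Agent.Y192.OG Pool.Agent.Y192.KC Pool.Agent.W603.BP Pool.Agent.Y220.KG
open Pool.Agent.H159R3.NV (Ent ev_ne)
open Pool.Agent.H159R3.Exp (Laur)
open Pool.Agent.Y742.DI Pool.Agent.N754.LT

variable {r : ℕ}

/-- clearing denominators -/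
theorem lau_num (T : Lau r) : ∃ N : ℕ, ∀ N', N ≤ N' → ∃ p : MvPolynomial (Fin r) ℂ,
    ∀ w : Fin r → Entˣ, (∏ j, (w j : Ent)) ^ N' * evE w T = aeval (fun j => (w j : Ent)) p := by
  induction T using AddMonoidAlgebra.induction_linear with
  | zero => exact ⟨0, fun N' _ => ⟨0, fun w => by rw [map_zero, map_zero, mul_zero]⟩⟩
  | add f g hf hg =>
    obtain ⟨N1, h1⟩ := hf
    obtain ⟨N2, h2⟩ := hg
    refine ⟨max N1 N2, fun N' hN' => ?_⟩
    obtain ⟨p1, h1⟩ := h1 N' ((le_max_left _ _).trans hN')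
    obtain ⟨p2, h2⟩ := h2 N' ((le_max_right _ _).trans hN')
    exact ⟨p1 + p2, fun w => by rw [map_add, map_add, mul_add, h1, h2]⟩
  | single m a =>
    refine ⟨∑ j, (m j).natAbs, fun N' hN' => ?_⟩
    have hpos : ∀ j, 0 ≤ (N' : ℤ) + m j := by
      intro j
      have h1 : (m j).natAbs ≤ ∑ j, (m j).natAbs :=
        Finset.single_le_sum (f := fun j => (m j).natAbs) (fun _ _ => Nat.zero_le _)
          (Finset.mem_univ j)
      omega
    refine ⟨monomial (Finsupp.equivFunOnFinite.symm fun j => ((N' : ℤ) + m j).toNat) a,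
      fun w => ?_⟩
    rw [aeval_monomial, Finsupp.prod_fintype _ _ (fun _ => pow_zero _), evE_single, mul_left_comm]
    congr 1
    rw [← Units.coe_prod, ← Units.val_pow_eq_pow_val, ← Units.val_mul, ← Finset.prod_pow,
      ← Finset.prod_mul_distrib, Units.coe_prod]
    refine Finset.prod_congr rfl fun j _ => ?_
    rw [← Units.val_pow_eq_pow_val]
    congr 1
    rw [← zpow_natCast (w j) N', ← zpow_add, ← zpow_natCast (w j)]
    congr 1
    exact (Int.toNat_of_nonneg (hpos j)).symm

/-- a basis of the kernel of a functional -/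
theorem ker_basis (l : Fin r → ℤ) (hl : l ≠ 0) : ∃ (r' : ℕ) (m : Fin r' → Fin r → ℤ), r' < r ∧
    (∀ b : Fin r' → ℤ, ∑ k, b k • m k = 0 → b = 0) ∧
    ∀ x : Fin r → ℤ, ∑ j, l j * x j = 0 → ∃ b : Fin r' → ℤ, x = ∑ k, b k • m k := by
  classical
  let φ : (Fin r → ℤ) →ₗ[ℤ] ℤ :=
    { toFun := fun x => ∑ j, l j * x j
      map_add' := fun x y => by
        rw [← Finset.sum_add_distrib]
        exact Finset.sum_congr rfl fun j _ => mul_add _ _ _
      map_smul' := fun c x => by
        rw [RingHom.id_apply, smul_eq_mul, Finset.mul_sum]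
        exact Finset.sum_congr rfl fun j _ => mul_left_comm _ _ _ }
  let Λ := LinearMap.ker φ
  let B := Module.finBasis ℤ Λ
  have hrk : Module.finrank ℤ Λ < r := by
    have h1 := Submodule.finrank_quotient_add_finrank Λ
    have h2 : Module.finrank ℤ ((Fin r → ℤ) ⧸ Λ) = Module.finrank ℤ (LinearMap.range φ) :=
      (LinearMap.quotKerEquivRange φ).finrank_eq
    have h3 : Nontrivial (LinearMap.range φ) := by
      rw [Submodule.nontrivial_iff_ne_bot, Ne, LinearMap.range_eq_bot]
      intro h0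
      apply hl
      funext j
      have h4 := DFunLike.congr_fun h0 (Pi.single j 1)
      have h5 : φ (Pi.single j 1) = l j := by
        show ∑ i, l i * (Pi.single j (1 : ℤ) : Fin r → ℤ) i = l j
        simp [Pi.single_apply]
      rw [h5] at h4
      exact h4
    have h4 : 0 < Module.finrank ℤ (LinearMap.range φ) := Module.finrank_pos
    have h5 : Module.finrank ℤ (Fin r → ℤ) = r := by simp
    omega
  refine ⟨Module.finrank ℤ Λ, fun k => (B k : Fin r → ℤ), hrk, fun b hb => ?_, fun x hx => ?_⟩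
  · have h1 : ∑ k, b k • B k = 0 := by
      apply Subtype.ext
      rw [Submodule.coe_sum]
      exact hb
    funext k
    exact Fintype.linearIndependent_iff.1 B.linearIndependent b h1 k
  · refine ⟨fun k => B.repr ⟨x, hx⟩ k, ?_⟩
    have h1 := B.sum_repr ⟨x, hx⟩
    have h2 : ((∑ k, B.repr ⟨x, hx⟩ k • B k : Λ) : Fin r → ℤ) = x := congrArg (Subtype.val) h1
    rw [Submodule.coe_sum] at h2
    exact h2.symm

theorem zpow_sum' {M : Type} [CommGroup M] {ι : Type} (s : Finset ι) (x : M) (a : ι → ℤ) :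
    ∏ k ∈ s, x ^ a k = x ^ ∑ k ∈ s, a k := by
  classical
  induction s using Finset.induction_on with
  | empty => simp
  | insert i s hi ih => rw [Finset.prod_insert hi, Finset.sum_insert hi, zpow_add, ih]

/-- the reduction to a smaller number of units -/
theorem reduce {n : ℕ} {w : Fin r → Entˣ} (hw : Ind w) (l : Fin r → ℤ) (hl : l ≠ 0)
    (p q : Fin n → MvPolynomial (Fin r) ℂ) (hq : ∀ i, q i ≠ 0) (f : Fin n → Ent)
    (hqp : ∀ i, aeval (fun j => (w j : Ent)) (q i) * f i = aeval (fun j => (w j : Ent)) (p i))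
    (hhom : ∀ i, ∀ b ∈ (p i).support ∪ (q i).support, ∀ b' ∈ (q i).support,
      ∑ j, l j * (b j : ℤ) = ∑ j, l j * (b' j : ℤ)) :
    ∃ r' < r, ∃ w' : Fin r' → Entˣ, Ind w' ∧ ∃ P Q : Fin n → Lau r', (∀ i, Q i ≠ 0) ∧
      ∀ i, evE w' (Q i) * f i = evE w' (P i) := by
  classical
  obtain ⟨r', m, hr', hind, hspan⟩ := ker_basis l hl
  let w' : Fin r' → Entˣ := fun k => ∏ j, w j ^ m k j
  have hw'b : ∀ b : Fin r' → ℤ, ∏ k, w' k ^ b k = ∏ j, w j ^ (∑ k, b k • m k) j := by
    intro b
    simp only [w']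
    have h1 : ∀ k, (∏ j, w j ^ m k j) ^ b k = ∏ j, w j ^ (b k * m k j) := by
      intro k
      rw [← Finset.prod_zpow]
      exact Finset.prod_congr rfl fun j _ => by rw [← zpow_mul, mul_comm]
    rw [Finset.prod_congr rfl fun k _ => h1 k, Finset.prod_comm]
    refine Finset.prod_congr rfl fun j _ => ?_
    rw [Finset.sum_apply, zpow_sum']
    rfl
  have hiw : Ind w' := by
    intro b hb
    rw [hw'b] at hb
    exact hind b (hw _ hb)
  have hb0 : ∀ i, ∃ b0, b0 ∈ (q i).support := fun i => MvPolynomial.support_nonempty.2 (hq i)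
  choose b0 hb0 using hb0
  -- coordinates
  have hco : ∀ (i : Fin n) (b : Fin r →₀ ℕ), ∃ c : Fin r' → ℤ,
      b ∈ (p i).support ∪ (q i).support →
        (fun j => ((b j : ℕ) : ℤ) - ((b0 i j : ℕ) : ℤ)) = ∑ k, c k • m k := by
    intro i b
    by_cases hb : b ∈ (p i).support ∪ (q i).support
    · obtain ⟨c, hc⟩ := hspan (fun j => ((b j : ℕ) : ℤ) - ((b0 i j : ℕ) : ℤ)) (by
        have h1 := hhom i b hb (b0 i) (hb0 i)
        rw [← sub_eq_zero, ← Finset.sum_sub_distrib] at h1
        rw [← h1]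
        exact Finset.sum_congr rfl fun j _ => mul_sub _ _ _)
      exact ⟨c, fun _ => hc⟩
    · exact ⟨0, fun h => absurd h hb⟩
  choose c hc using hco
  have key : ∀ (i : Fin n) (g : MvPolynomial (Fin r) ℂ),
      g.support ⊆ (p i).support ∪ (q i).support →
      ((∏ j, w j ^ (b0 i j) : Entˣ) : Ent) *
        evE w' (∑ b ∈ g.support, AddMonoidAlgebra.single (c i b) (coeff b g)) =
        aeval (fun j => (w j : Ent)) g := by
    intro i g hg
    conv_rhs => rw [g.as_sum]
    rw [map_sum, map_sum, Finset.mul_sum]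
    refine Finset.sum_congr rfl fun b hb => ?_
    rw [evE_single, hw'b, ← hc i b (hg hb), aeval_monomial,
      Finsupp.prod_fintype _ _ (fun _ => pow_zero _), mul_left_comm]
    congr 1
    rw [← Units.val_mul, ← Finset.prod_mul_distrib, Units.coe_prod]
    refine Finset.prod_congr rfl fun j _ => ?_
    rw [← Units.val_pow_eq_pow_val]
    congr 1
    rw [← zpow_natCast (w j) (b0 i j), ← zpow_add, add_sub_cancel, zpow_natCast]
  have hinj := ai_of_ind hw
  refine ⟨r', hr', w', hiw,
    fun i => ∑ b ∈ (p i).support, AddMonoidAlgebra.single (c i b) (coeff b (p i)),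
    fun i => ∑ b ∈ (q i).support, AddMonoidAlgebra.single (c i b) (coeff b (q i)),
    fun i h0 => ?_, fun i => ?_⟩
  · have h1 := key i (q i) Finset.subset_union_right
    have h0' : ∑ b ∈ (q i).support, AddMonoidAlgebra.single (c i b) (coeff b (q i)) = 0 := h0
    rw [h0', map_zero, mul_zero] at h1
    apply hq i
    have hinj' : Function.Injective
      (aeval (fun j => (w j : Ent)) : MvPolynomial (Fin r) ℂ →ₐ[ℂ] Ent) := hinj
    apply hinj'
    rw [← h1, map_zero]
  · have h1 := key i (q i) Finset.subset_union_right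
    have h2 := key i (p i) Finset.subset_union_left
    have h3 := hqp i
    rw [← h1, ← h2, mul_assoc] at h3
    exact (Units.mul_right_inj _).1 h3

theorem val_aeval' {m : ℕ} (f : Fin m → Ent) (P : MvPolynomial (Fin m) ℂ) (z : ℂ) :
    ((aeval f P : Ent) : ℂ → ℂ) z = eval (fun i => (f i : ℂ → ℂ) z) P := by
  have h1 : (((Pi.evalAlgHom ℂ (fun _ : ℂ => ℂ) z).comp Ent.val).comp (aeval f)) =
      aeval (fun i => (f i : ℂ → ℂ) z) := by
    apply MvPolynomial.algHom_ext
    intro i
    rw [AlgHom.comp_apply, aeval_X, aeval_X]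
    rfl
  have h2 := DFunLike.congr_fun h1 P
  rw [ae_eval] at h2
  exact h2

/-- the scaling of a polynomial -/
noncomputable def scl (l : Fin r → ℤ) (e : ℤ) (p : MvPolynomial (Fin r) ℂ) :
    MvPolynomial (Fin r) ℂ :=
  ∑ b ∈ p.support, monomial b (coeff b p * ((2 : ℂ) ^ (∑ j, l j * (b j : ℤ)) - 2 ^ e))

theorem scl_ne (l : Fin r → ℤ) (e : ℤ) (p : MvPolynomial (Fin r) ℂ) (b : Fin r →₀ ℕ)
    (hb : b ∈ p.support) (hbe : ∑ j, l j * (b j : ℤ) ≠ e) : scl l e p ≠ 0 := by
  classical
  intro h0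
  have h1 := congrArg (coeff b) h0
  unfold scl at h1
  rw [coeff_sum, Finset.sum_eq_single b, coeff_monomial, if_pos rfl, coeff_zero] at h1
  · rcases mul_eq_zero.1 h1 with h2 | h2
    · exact (mem_support_iff.1 hb) h2
    · apply hbe
      have h3 : (2 : ℂ) ^ (∑ j, l j * (b j : ℤ)) = 2 ^ e := sub_eq_zero.1 h2
      have h4 := congrArg norm h3
      rw [norm_zpow, norm_zpow, Complex.norm_ofNat] at h4
      exact zpow_right_injective₀ (by norm_num) (by norm_num) h4
  · intro b' _ hb'
    rw [coeff_monomial, if_neg hb']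
  · exact fun h => absurd hb h

theorem scl_eval (l : Fin r → ℤ) (e : ℤ) (p : MvPolynomial (Fin r) ℂ) (w0 : Fin r → ℂ) :
    eval w0 (scl l e p) = eval (fun j => w0 j * 2 ^ l j) p - 2 ^ e * eval w0 p := by
  classical
  have h1 : ∀ x : Fin r → ℂ, eval x p = ∑ b ∈ p.support, eval x (monomial b (coeff b p)) := by
    intro x
    conv_lhs => rw [p.as_sum]
    rw [map_sum]
  unfold scl
  rw [map_sum, h1, h1, Finset.mul_sum, ← Finset.sum_sub_distrib]
  refine Finset.sum_congr rfl fun b hb => ?_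
  by_cases hc : coeff b p = 0
  · simp [hc]
  have hsup : (monomial b (coeff b p)).support = {b} := by
    rw [support_monomial, if_neg hc]
  rw [eval_hom l (monomial b (coeff b p)) (∑ j, l j * (b j : ℤ)) (fun b' hb' => by
    rw [hsup, Finset.mem_singleton] at hb'
    rw [hb']) w0 2 two_ne_zero, eval_monomial, eval_monomial]
  ring

/-- Laurent curves through the values of entire functions which are quotients of linear
combinations of functions without zeros -/
theorem curve_thm {n : ℕ} {ι : Type} (F : ι → MvPolynomial (Fin n) ℂ) (f : Fin n → Ent)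
    (hF : ∀ l, aeval f (F l) = 0) (hnc : ∃ i, ∀ c : ℂ, f i ≠ algebraMap ℂ Ent c) (z0 : ℂ) :
    ∀ (r : ℕ) (w : Fin r → Entˣ), Ind w → ∀ (P Q : Fin n → Lau r), (∀ i, Q i ≠ 0) →
    (∀ i, evE w (Q i) * f i = evE w (P i)) →
    ∀ᶠ t in 𝓝[≠] z0, ∃ v : ℂ → Fin n → ℂ, (∀ j, Laur fun s => v s j) ∧
      (∀ i s, s ≠ 0 → eval (v s) (F i) = 0) ∧ (v 1 = fun j => (f j : ℂ → ℂ) t) ∧
      ∃ j, v 2 j ≠ v 1 j := by
  classical
  intro r
  induction r using Nat.strong_induction_on with
  | _ r ih =>
  intro w hw P Q hQ hPQ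
  have hai := ai_of_ind hw
  have hinj : Function.Injective
      (aeval (fun j => (w j : Ent)) : MvPolynomial (Fin r) ℂ →ₐ[ℂ] Ent) := hai
  -- polynomials
  have hpol : ∀ i, ∃ p q : MvPolynomial (Fin r) ℂ, q ≠ 0 ∧
      aeval (fun j => (w j : Ent)) q * f i = aeval (fun j => (w j : Ent)) p := by
    intro i
    obtain ⟨N1, h1⟩ := lau_num (P i)
    obtain ⟨N2, h2⟩ := lau_num (Q i)
    obtain ⟨p, hp⟩ := h1 (max N1 N2) (le_max_left _ _)
    obtain ⟨q, hq⟩ := h2 (max N1 N2) (le_max_right _ _)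
    refine ⟨p, q, fun h0 => ?_, ?_⟩
    · have h3 := hq w
      rw [h0, map_zero, ← Units.coe_prod, ← Units.val_pow_eq_pow_val] at h3
      have h4 := (Units.mul_right_eq_zero _).1 h3
      exact hQ i (evE_inj hw (by rw [h4, map_zero]))
    · rw [← hq w, ← hp w, mul_assoc, hPQ]
  -- coprime polynomials
  have hred : ∀ i, ∃ p q : MvPolynomial (Fin r) ℂ, q ≠ 0 ∧ IsRelPrime q p ∧
      aeval (fun j => (w j : Ent)) q * f i = aeval (fun j => (w j : Ent)) p := by
    intro i
    obtain ⟨p, q, hq, hpq⟩ := hpol i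
    obtain ⟨p', q', c, h1, h2, h3⟩ := UniqueFactorizationMonoid.exists_reduced_factors' p q hq
    have hc : c ≠ 0 := by
      rintro rfl
      rw [zero_mul] at h3
      exact hq h3.symm
    refine ⟨p', q', ?_, h1.symm, ?_⟩
    · rintro rfl
      rw [mul_zero] at h3
      exact hq h3.symm
    · rw [← h2, ← h3, map_mul, map_mul, mul_assoc] at hpq
      exact mul_left_cancel₀ (fun h0 => hc (hinj (by rw [h0, map_zero]))) hpq
  choose p q hq hrel hqp using hred
  rcases Nat.eq_zero_or_pos r with hr | hr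
  · exfalso
    subst hr
    obtain ⟨i, hi⟩ := hnc
    have h1 := hqp i
    rw [MvPolynomial.eq_C_of_isEmpty (q i), MvPolynomial.eq_C_of_isEmpty (p i),
      ← MvPolynomial.algebraMap_eq, AlgHom.commutes, AlgHom.commutes] at h1
    have h2 : coeff 0 (q i) ≠ 0 := by
      intro h0
      apply hq i
      rw [MvPolynomial.eq_C_of_isEmpty (q i), h0, C_0]
    apply hi ((coeff 0 (q i))⁻¹ * coeff 0 (p i))
    rw [map_mul, ← h1, ← mul_assoc, ← map_mul, inv_mul_cancel₀ h2, map_one, one_mul]
  -- the functional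
  obtain ⟨l, ⟨i0, hi0, hl0⟩, hom⟩ := funE (w := fun j => (w j : Ent))
    (hw0 := fun j z => unit_ne (w j) z) (n := r + n) hr hai
    (Finset.univ.image (Fin.castAdd n))
    (Fin.addCases (fun j => Pi.single j 1) (fun _ => 0))
    (by
      intro j
      refine Submodule.subset_span ⟨Fin.castAdd n j, ?_, ?_⟩
      · simp
      · exact Fin.addCases_left j)
    (Fin.addCases (fun j => X j) p) (Fin.addCases (fun _ => 1) q)
    (by
      intro i hi b hb b' hb'
      obtain ⟨j, -, rfl⟩ := Finset.mem_image.1 hi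
      rw [Fin.addCases_left] at hb hb'
      rw [support_one, Finset.mem_singleton] at hb hb'
      rw [hb, hb'])
    (by
      intro i
      refine Fin.addCases (fun j => ?_) (fun k => ?_) i
      · intro h
        exact absurd (Finset.mem_image_of_mem _ (Finset.mem_univ j)) h
      · intro _
        rw [Fin.addCases_right, Fin.addCases_right]
        exact hrel k)
    (by
      intro i
      refine Fin.addCases (fun j => ?_) (fun k => ?_) i
      · rw [Fin.addCases_left]
        exact one_ne_zero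
      · rw [Fin.addCases_right]
        exact hq k)
    (Fin.addCases (fun j => (w j : Ent)) f)
    (by
      intro i
      refine Fin.addCases (fun j => ?_) (fun k => ?_) i
      · rw [Fin.addCases_left, Fin.addCases_left, Fin.addCases_left, map_one, one_mul, aeval_X]
      · rw [Fin.addCases_right, Fin.addCases_right, Fin.addCases_right]
        exact hqp k)
  have hl : l ≠ 0 := by
    rintro rfl
    apply hl0
    simp
  have hom' : ∀ i, ∀ b ∈ (q i).support, ∀ b' ∈ (q i).support,
      ∑ j, l j * (b j : ℤ) = ∑ j, l j * (b' j : ℤ) := by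
    intro i
    have h1 := hom (Fin.natAdd r i)
    rw [Fin.addCases_right] at h1
    exact h1
  by_cases hA : ∀ i, ∀ b ∈ (p i).support, ∀ b' ∈ (q i).support,
      ∑ j, l j * (b j : ℤ) = ∑ j, l j * (b' j : ℤ)
  · obtain ⟨r', hr', w', hw', P', Q', h1, h2⟩ := reduce hw l hl p q hq f hqp (by
      intro i b hb b' hb'
      rcases Finset.mem_union.1 hb with hb | hb
      · exact hA i b hb b' hb'
      · exact hom' i b hb b' hb')
    exact ih r' hr' w' hw' P' Q' h1 h2
  · push Not at hA
    obtain ⟨i1, b1, hb1, b1', hb1', hne⟩ := hA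
    set e : ℤ := ∑ j, l j * (b1' j : ℤ) with he
    have e0 : ∀ᶠ t in 𝓝[≠] z0, ((aeval (fun j => (w j : Ent)) (scl l e (p i1)) : Ent) : ℂ → ℂ) t
        ≠ 0 := (rpE z0).rep_ne _ fun h0 => scl_ne l e (p i1) b1 hb1 hne
          (hinj (by rw [h0, map_zero]))
    have e2 : ∀ᶠ t in 𝓝[≠] z0, ∀ i, ((aeval (fun j => (w j : Ent)) (q i) : Ent) : ℂ → ℂ) t
        ≠ 0 := by
      refine Filter.eventually_all.2 fun i => ?_
      exact (rpE z0).rep_ne _ fun h0 => hq i (hinj (by rw [h0, map_zero]))
    filter_upwards [e0, e2] with t h0 h2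
    rw [val_aeval'] at h0
    simp only [val_aeval'] at h2
    set w0 : Fin r → ℂ := fun j => ((w j : Ent) : ℂ → ℂ) t with hw0
    obtain ⟨v, hv1, hv2, hv3⟩ := curve_of_data l p q hom' hq F (fun j => (w j : Ent)) hai f
      hqp hF w0 (fun j => unit_ne (w j) t) h2
    have hs1 : (fun j => w0 j * (1 : ℂ) ^ l j) = w0 := by
      funext j
      rw [one_zpow, mul_one]
    refine ⟨v, hv1, hv2, ?_, i1, ?_⟩
    · funext i
      have h4 := hv3 1 one_ne_zero i
      rw [hs1] at h4
      have h5 := congrFun (congrArg Subtype.val (hqp i)) t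
      have h6 : ((aeval (fun j => (w j : Ent)) (q i) : Ent) : ℂ → ℂ) t * (f i : ℂ → ℂ) t =
        ((aeval (fun j => (w j : Ent)) (p i) : Ent) : ℂ → ℂ) t := h5
      rw [val_aeval', val_aeval', ← h4] at h6
      exact (mul_left_cancel₀ (h2 i) h6).symm
    · intro heq
      have h4 := hv3 1 one_ne_zero i1
      have h5 := hv3 2 two_ne_zero i1
      rw [hs1] at h4
      rw [eval_hom l (q i1) e (fun b hb => hom' i1 b hb b1' hb1') w0 2 two_ne_zero, heq,
        mul_assoc, h4] at h5
      apply h0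
      rw [scl_eval, ← h5, sub_self]

end Pool.Agent.H21bl.RE
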