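import Pool.Agent.H21bl.RE.Curve

/-!
The functions obtained from exponentials of entire functions by field operations and roots.
-/

set_option autoImplicit false

namespace Pool.Agent.H21bl.RE

open Filter Topology Metric Set MvPolynomial Module
open Pool.Agent.Y192.OG Pool.Agent.Y192.KC Pool.Agent.W603.BP Pool.Agent.Y220.KG
open Pool.Agent.H159R3.NV (Ent ev_ne)
open Pool.Agent.H159R3.Exp (Laur)
open Pool.Agent.Y742.DI Pool.Agent.N754.LT

/-- Radical functions: the smallest class of functions on the complex plane which contains the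
constants, the function `z` and the functions `exp (g z)`, where `g` is any entire function, and is
closed under sums, products, quotients and the extraction of roots: if `f` is in the class and `h`
is a meromorphic function such that `h ^ e = f` outside a countable set, then `h` is in the class. -/
inductive RadFun : (ℂ → ℂ) → Prop
  | const (c : ℂ) : RadFun fun _ => c
  | id : RadFun fun z => z
  | exp {g : ℂ → ℂ} : Differentiable ℂ g → RadFun fun z => Complex.exp (g z)
  | add {f g : ℂ → ℂ} : RadFun f → RadFun g → RadFun fun z => f z + g z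
  | mul {f g : ℂ → ℂ} : RadFun f → RadFun g → RadFun fun z => f z * g z
  | div {f g : ℂ → ℂ} : RadFun f → RadFun g → RadFun fun z => f z / g z
  | root {f h : ℂ → ℂ} {e : ℕ} : 0 < e → RadFun f → (∀ z, MeromorphicAt h z) →
      {z | h z ^ e ≠ f z}.Countable → RadFun h

/-- preimages of countable sets under the exponential function -/
theorem exp_countable {S : Set ℂ} (hS : S.Countable) : (Complex.exp ⁻¹' S).Countable := by
  have h1 : Complex.exp ⁻¹' S = ⋃ s ∈ S, {z | Complex.exp z = s} := by
    ext z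
    simp
  rw [h1]
  refine hS.biUnion fun s _ => ?_
  by_cases hs : ∃ z, Complex.exp z = s
  · obtain ⟨z0, hz0⟩ := hs
    have h2 : {z | Complex.exp z = s} ⊆
        Set.range fun n : ℤ => z0 + n * (2 * Real.pi * Complex.I) := by
      intro z hz
      have h3 : Complex.exp z = Complex.exp z0 := by rw [hz0]; exact hz
      obtain ⟨n, hn⟩ := Complex.exp_eq_exp_iff_exists_int.1 h3
      exact ⟨n, hn.symm⟩
    exact (Set.countable_range _).mono h2
  · have h2 : {z | Complex.exp z = s} = ∅ := by
      ext z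
      simp only [Set.mem_ofPred_eq, mem_empty_iff_false, iff_false]
      exact fun h => hs ⟨z, h⟩
    rw [h2]
    exact Set.countable_empty

theorem eq_of_countable {f g : ℂ → ℂ} (hf : Continuous f) (hg : Continuous g)
    (h : {z | f z ≠ g z}.Countable) (z : ℂ) : f z = g z := by
  have h1 : Dense {z | f z ≠ g z}ᶜ := h.dense_compl ℝ
  refine congrFun (Continuous.ext_on h1 hf hg fun z hz => ?_) z
  by_contra hne
  exact hz hne

/-- meromorphic functions which agree outside a countable set -/
theorem mero_eq {f g : ℂ → ℂ} {z0 : ℂ} (hf : MeromorphicAt f z0) (hg : MeromorphicAt g z0)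
    (h : {z | f z ≠ g z}.Countable) : f =ᶠ[𝓝[≠] z0] g := by
  have h1 : MeromorphicAt (fun z => f z - g z) z0 := hf.sub hg
  rcases h1.eventually_eq_zero_or_eventually_ne_zero with h2 | h2
  · filter_upwards [h2] with z hz
    exact sub_eq_zero.1 hz
  · exfalso
    rw [eventually_nhdsWithin_iff] at h2
    obtain ⟨U, hU1, hU2, hU3⟩ := _root_.eventually_nhds_iff.1 h2
    have h3 : Dense ({z | f z ≠ g z} ∪ {z0})ᶜ :=
      (h.union (Set.countable_singleton z0)).dense_compl ℝ
    obtain ⟨w, hw1, hw2⟩ := h3.inter_open_nonempty U hU2 ⟨z0, hU3⟩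
    rw [mem_compl_iff, mem_union] at hw2
    push Not at hw2
    exact hU1 w hw1 hw2.2 (sub_eq_zero.2 (by
      by_contra hne
      exact hw2.1 hne))

/-- a meromorphic function with an entire power is entire -/
theorem entire_of_pow {k : ℂ → ℂ} (hk : ∀ z, MeromorphicAt k z) {e : ℕ} (he : 0 < e) (f : Ent)
    (h : {z | k z ^ e ≠ (f : ℂ → ℂ) z}.Countable) :
    ∃ k' : Ent, k' ^ e = f ∧ {z | (k' : ℂ → ℂ) z ≠ k z}.Countable := by
  have hkU : MeromorphicOn k univ := fun z _ => hk z
  let k' : ℂ → ℂ := toMeromorphicNFOn k univ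
  have hnf : ∀ z, MeromorphicNFAt k' z := fun z =>
    meromorphicNFOn_toMeromorphicNFOn k univ (mem_univ z)
  have hev : ∀ z, k' =ᶠ[𝓝[≠] z] k := fun z =>
    hkU.toMeromorphicNFOn_eq_self_on_nhdsNE (mem_univ z)
  have hord : ∀ z, 0 ≤ meromorphicOrderAt k' z := by
    intro z
    have h1 : meromorphicOrderAt (k ^ e) z = e * meromorphicOrderAt k z :=
      meromorphicOrderAt_pow (hk z)
    have h2 : (k ^ e) =ᶠ[𝓝[≠] z] (f : ℂ → ℂ) :=
      mero_eq ((hk z).pow e) (f.2.analyticAt z).meromorphicAt h
    have h3 : 0 ≤ meromorphicOrderAt (k ^ e) z := by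
      rw [meromorphicOrderAt_congr h2]
      exact (f.2.analyticAt z).meromorphicOrderAt_nonneg
    rw [meromorphicOrderAt_congr (hev z)]
    rw [h1] at h3
    cases hm : meromorphicOrderAt k z with
    | top => exact le_top
    | coe m =>
      rw [hm] at h3
      have h4 : (0 : WithTop ℤ) ≤ (((e : ℤ) * m : ℤ) : WithTop ℤ) := by
        push_cast
        exact h3
      have h5 : 0 ≤ (e : ℤ) * m := by exact_mod_cast h4
      have h6 : 0 ≤ m := by
        by_contra hneg
        push Not at hneg
        have : (e : ℤ) * m < 0 := mul_neg_of_pos_of_neg (by exact_mod_cast he) hneg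
        omega
      exact_mod_cast h6
  have hdiff : Differentiable ℂ k' := fun z =>
    ((hnf z).meromorphicOrderAt_nonneg_iff_analyticAt.1 (hord z)).differentiableAt
  have hcnt : {z | k' z ≠ k z}.Countable := by
    refine (HereditarilyLindelofSpace.isLindelof _).countable_of_isDiscrete ?_
    rw [isDiscrete_iff_nhdsNE]
    intro z _
    rw [← disjoint_iff, Filter.disjoint_principal_right]
    filter_upwards [hev z] with w hw
    exact fun h => h hw
  refine ⟨⟨k', hdiff⟩, ?_, hcnt⟩
  apply Subtype.ext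
  funext z
  show k' z ^ e = (f : ℂ → ℂ) z
  refine eq_of_countable (hdiff.continuous.pow e) f.2.continuous ?_ z
  refine (hcnt.union h).mono fun w hw => ?_
  by_contra hcon
  rw [mem_union] at hcon
  push Not at hcon
  apply hw
  have h1 : k' w = k w := by
    by_contra hne
    exact hcon.1 hne
  show k' w ^ e = (f : ℂ → ℂ) w
  rw [h1]
  by_contra hne
  exact hcon.2 hne

/-- zeros of a nonzero element -/
theorem ent_zeros {f : Ent} (hf : f ≠ 0) : {z | (f : ℂ → ℂ) z = 0}.Countable := by
  refine zeros_countable f.2 ?_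
  by_contra hcon
  push Not at hcon
  exact hf (Subtype.ext (funext hcon))

theorem exp_ent {g : ℂ → ℂ} (hg : Differentiable ℂ g) :
    (⟨fun z => Complex.exp (g z), hg.cexp⟩ : Ent) ∈ EP :=
  Algebra.subset_adjoin fun _ => Complex.exp_ne_zero _

/-- **The structure of radical functions.** -/
theorem rad_struct {f : ℂ → ℂ} (hf : RadFun f) : ∃ A B : Ent, A ∈ EP ∧ B ∈ EP ∧ B ≠ 0 ∧
    {z | (B : ℂ → ℂ) z * f (Complex.exp z) ≠ (A : ℂ → ℂ) z}.Countable := by
  induction hf with
  | const c =>
    refine ⟨algebraMap ℂ Ent c, 1, EP.algebraMap_mem c, EP.one_mem, one_ne_zero, ?_⟩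
    convert Set.countable_empty
    ext z
    simp only [Set.mem_ofPred_eq, mem_empty_iff_false, iff_false, not_not]
    show (1 : ℂ) * c = c
    exact one_mul c
  | id =>
    refine ⟨⟨fun z => Complex.exp z, Complex.differentiable_exp⟩, 1,
      Algebra.subset_adjoin fun _ => Complex.exp_ne_zero _, EP.one_mem, one_ne_zero, ?_⟩
    convert Set.countable_empty
    ext z
    simp only [Set.mem_ofPred_eq, mem_empty_iff_false, iff_false, not_not]
    show (1 : ℂ) * Complex.exp z = Complex.exp z
    exact one_mul _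
  | @exp g hg =>
    refine ⟨⟨fun z => Complex.exp (g (Complex.exp z)),
      (hg.comp Complex.differentiable_exp).cexp⟩, 1,
      Algebra.subset_adjoin fun _ => Complex.exp_ne_zero _, EP.one_mem, one_ne_zero, ?_⟩
    convert Set.countable_empty
    ext z
    simp only [Set.mem_ofPred_eq, mem_empty_iff_false, iff_false, not_not]
    show (1 : ℂ) * Complex.exp (g (Complex.exp z)) = Complex.exp (g (Complex.exp z))
    exact one_mul _
  | @add f g _ _ ihf ihg =>
    obtain ⟨A1, B1, a1, b1, n1, c1⟩ := ihf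
    obtain ⟨A2, B2, a2, b2, n2, c2⟩ := ihg
    refine ⟨A1 * B2 + A2 * B1, B1 * B2, EP.add_mem (EP.mul_mem a1 b2) (EP.mul_mem a2 b1),
      EP.mul_mem b1 b2, mul_ne_zero n1 n2, (c1.union c2).mono fun z hz => ?_⟩
    by_contra hcon
    rw [mem_union] at hcon
    simp only [Set.mem_ofPred_eq] at hcon
    push Not at hcon
    apply hz
    show (B1 : ℂ → ℂ) z * (B2 : ℂ → ℂ) z * (f (Complex.exp z) + g (Complex.exp z)) =
      (A1 : ℂ → ℂ) z * (B2 : ℂ → ℂ) z + (A2 : ℂ → ℂ) z * (B1 : ℂ → ℂ) z
    rw [← hcon.1, ← hcon.2]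
    ring
  | @mul f g _ _ ihf ihg =>
    obtain ⟨A1, B1, a1, b1, n1, c1⟩ := ihf
    obtain ⟨A2, B2, a2, b2, n2, c2⟩ := ihg
    refine ⟨A1 * A2, B1 * B2, EP.mul_mem a1 a2,
      EP.mul_mem b1 b2, mul_ne_zero n1 n2, (c1.union c2).mono fun z hz => ?_⟩
    by_contra hcon
    rw [mem_union] at hcon
    simp only [Set.mem_ofPred_eq] at hcon
    push Not at hcon
    apply hz
    show (B1 : ℂ → ℂ) z * (B2 : ℂ → ℂ) z * (f (Complex.exp z) * g (Complex.exp z)) =
      (A1 : ℂ → ℂ) z * (A2 : ℂ → ℂ) z
    rw [← hcon.1, ← hcon.2]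
    ring
  | @div f g _ _ ihf ihg =>
    obtain ⟨A1, B1, a1, b1, n1, c1⟩ := ihf
    obtain ⟨A2, B2, a2, b2, n2, c2⟩ := ihg
    by_cases hA2 : A2 = 0
    · refine ⟨0, 1, EP.zero_mem, EP.one_mem, one_ne_zero,
        (c2.union (ent_zeros n2)).mono fun z hz => ?_⟩
      by_contra hcon
      rw [mem_union] at hcon
      simp only [Set.mem_ofPred_eq] at hcon
      push Not at hcon
      apply hz
      show (1 : ℂ) * (f (Complex.exp z) / g (Complex.exp z)) = 0
      have h1 : (B2 : ℂ → ℂ) z * g (Complex.exp z) = 0 := by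
        rw [hcon.1, hA2]
        rfl
      rw [(mul_eq_zero.1 h1).resolve_left hcon.2, div_zero, mul_zero]
    · refine ⟨A1 * B2, B1 * A2, EP.mul_mem a1 b2, EP.mul_mem b1 a2, mul_ne_zero n1 hA2,
        ((c1.union c2).union (ent_zeros hA2)).mono fun z hz => ?_⟩
      by_contra hcon
      rw [mem_union, mem_union] at hcon
      simp only [Set.mem_ofPred_eq] at hcon
      push Not at hcon
      obtain ⟨⟨h1, h2⟩, h3⟩ := hcon
      apply hz
      show (B1 : ℂ → ℂ) z * (A2 : ℂ → ℂ) z * (f (Complex.exp z) / g (Complex.exp z)) =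
        (A1 : ℂ → ℂ) z * (B2 : ℂ → ℂ) z
      have h4 : g (Complex.exp z) ≠ 0 := by
        intro h0
        rw [h0, mul_zero] at h2
        exact h3 h2.symm
      rw [← h1, ← h2]
      field_simp
  | @root f h e he _ hm hc ih =>
    obtain ⟨A, B, a, b, n, c⟩ := ih
    -- the function `B h`
    have hk : ∀ z, MeromorphicAt (fun z => (B : ℂ → ℂ) z * h (Complex.exp z)) z := by
      intro z
      refine (B.2.analyticAt z).meromorphicAt.mul ?_
      exact (hm (Complex.exp z)).comp_analyticAt (Complex.differentiable_exp.analyticAt z)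
    have hcnt : {z | ((B : ℂ → ℂ) z * h (Complex.exp z)) ^ e ≠
        ((B ^ (e - 1) * A : Ent) : ℂ → ℂ) z}.Countable := by
      refine (c.union (exp_countable hc)).mono fun z hz => ?_
      by_contra hcon
      rw [mem_union] at hcon
      simp only [Set.mem_ofPred_eq, mem_preimage] at hcon
      push Not at hcon
      obtain ⟨h1, h2⟩ := hcon
      apply hz
      show ((B : ℂ → ℂ) z * h (Complex.exp z)) ^ e = (B : ℂ → ℂ) z ^ (e - 1) * (A : ℂ → ℂ) z
      rw [mul_pow, h2, ← h1, ← mul_assoc, ← pow_succ, Nat.sub_add_cancel he]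
    obtain ⟨k', hk1, hk2⟩ := entire_of_pow hk he _ hcnt
    refine ⟨k', B, ep_root he ?_, b, n, hk2.mono fun z hz => Ne.symm hz⟩
    rw [hk1]
    exact EP.mul_mem (EP.pow_mem b _) a

end Pool.Agent.H21bl.RE
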