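import Mathlib
import Pool.Agent.H21bl.LT.AnM
import Pool.Agent.Y192.KC.All1

/-!
The ring of the linear combinations of entire functions without zeros is closed under the
extraction of roots.
-/

set_option autoImplicit false

namespace Pool.Agent.H21bl.RE

open Filter Topology Metric Set MvPolynomial Module
open Pool.Agent.Y192.OG Pool.Agent.Y192.KC Pool.Agent.W603.BP Pool.Agent.Y220.KG
open Pool.Agent.H159R3.NV (Ent ev_ne)
open Pool.Agent.Y742.DI Pool.Agent.N754.LT

/-- the ring generated by the entire functions without zeros -/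
noncomputable def EP : Subalgebra ℂ Ent := Algebra.adjoin ℂ {u : Ent | ∀ z, (u : ℂ → ℂ) z ≠ 0}

theorem unit_mem (u : Entˣ) : (u : Ent) ∈ EP := Algebra.subset_adjoin (unit_ne u)

theorem ep_span {f : Ent} (hf : f ∈ EP) : ∃ c : Entˣ →₀ ℂ, f = c.sum fun g a => a • (g : Ent) := by
  have h1 : f ∈ Submodule.span ℂ (Set.range fun g : Entˣ => (g : Ent)) := by
    have h2 : f ∈ Subalgebra.toSubmodule EP := hf
    unfold EP at h2
    rw [Algebra.adjoin_eq_span] at h2
    refine Submodule.span_mono ?_ h2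
    have h3 : Submonoid.closure {u : Ent | ∀ z, (u : ℂ → ℂ) z ≠ 0} ≤
        MonoidHom.mrange (Units.coeHom Ent) := by
      rw [Submonoid.closure_le]
      intro u hu
      exact ⟨mkU u hu, rfl⟩
    intro x hx
    obtain ⟨g, hg⟩ := h3 hx
    exact ⟨g, hg⟩
  rw [Finsupp.mem_span_range_iff_exists_finsupp] at h1
  obtain ⟨c, hc⟩ := h1
  exact ⟨c, hc.symm⟩

/-- the group of units is torsion free modulo the constants -/
theorem tfC (g : Entˣ) (n : ℕ) (hn : 0 < n) (h : g ^ n ∈ constU ℂ Ent) : g ∈ constU ℂ Ent :=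
  tfE g n hn h

/-- independence modulo the constants -/
def Ind {r : ℕ} (w : Fin r → Entˣ) : Prop :=
  ∀ b : Fin r → ℤ, (∃ c : ℂ, ((∏ j, w j ^ b j : Entˣ) : Ent) = algebraMap ℂ Ent c) → b = 0

theorem ai_of_ind {r : ℕ} {w : Fin r → Entˣ} (h : Ind w) :
    AlgebraicIndependent ℂ (fun j => (w j : Ent)) :=
  algInd_of_units (⊤ : Subgroup Entˣ) (fun m g _ hne c hc => unitE m g hne c hc) w
    (fun _ => trivial) h

/-- a representation of finitely many elements as polynomials in independent units -/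
theorem ep_rep {ι : Type} [Finite ι] (f : ι → Ent) (hf : ∀ i, f i ∈ EP) :
    ∃ (r : ℕ) (w : Fin r → Entˣ), Ind w ∧ ∃ (N : ℕ) (p : ι → MvPolynomial (Fin r) ℂ),
      ∀ i, (∏ j, (w j : Ent)) ^ N * f i = aeval (fun j => (w j : Ent)) (p i) := by
  classical
  have := Fintype.ofFinite ι
  choose c hc using fun i => ep_span (hf i)
  let T : Finset Entˣ := Finset.univ.biUnion fun i => (c i).support
  obtain ⟨r, w, a, k, hk, hu, hind, -⟩ := exists_basis (constU ℂ Ent) tfC (fun g : T => (g : Entˣ))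
  choose kc hkc using hk
  let N : ℕ := Finset.univ.sup fun g : T => Finset.univ.sup fun j => (a g j).natAbs
  have hN : ∀ (g : T) j, 0 ≤ (N : ℤ) + a g j := by
    intro g j
    have h1 : (a g j).natAbs ≤ N :=
      (Finset.le_sup (f := fun j => (a g j).natAbs) (Finset.mem_univ j)).trans
        (Finset.le_sup (f := fun g : T => Finset.univ.sup fun j => (a g j).natAbs)
          (Finset.mem_univ g))
    omega
  let ex : T → Fin r →₀ ℕ := fun g => Finsupp.equivFunOnFinite.symm fun j => (N + a g j).toNat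
  have hex : ∀ (g : T), (∏ j, w j) ^ N * ∏ j, w j ^ a g j = ∏ j, w j ^ ex g j := by
    intro g
    rw [← Finset.prod_pow, ← Finset.prod_mul_distrib]
    refine Finset.prod_congr rfl fun j _ => ?_
    have h1 : ((ex g j : ℕ) : ℤ) = N + a g j := Int.toNat_of_nonneg (hN g j)
    rw [← zpow_natCast (w j) (ex g j), h1, zpow_add, zpow_natCast]
  have hg : ∀ g : T, (∏ j, (w j : Ent)) ^ N * ((g : Entˣ) : Ent) =
      algebraMap ℂ Ent (kc g) * ∏ j, (w j : Ent) ^ ex g j := by
    intro g
    have h1 : (∏ j, (w j : Ent)) ^ N * ((g : Entˣ) : Ent) =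
        (((∏ j, w j) ^ N * (g : Entˣ) : Entˣ) : Ent) := by
      rw [Units.val_mul, Units.val_pow_eq_pow_val, Units.coe_prod]
    have h2 : (∏ j, w j) ^ N * (g : Entˣ) = k g * ∏ j, w j ^ ex g j := by
      rw [← hex g, hu g]
      exact mul_left_comm _ _ _
    rw [h1, h2, Units.val_mul, hkc g, Units.coe_prod]
    simp only [Units.val_pow_eq_pow_val]
  refine ⟨r, w, fun b hb => hind b hb, N,
    fun i => ∑ g : T, monomial (ex g) (c i g * kc g), fun i => ?_⟩
  have h1 : f i = ∑ g : T, algebraMap ℂ Ent (c i g) * ((g : Entˣ) : Ent) := by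
    rw [hc i, Finsupp.sum]
    have h2 : ∑ g ∈ (c i).support, (c i g) • ((g : Entˣ) : Ent) =
        ∑ g ∈ T, (c i g) • ((g : Entˣ) : Ent) := by
      refine Finset.sum_subset ?_ fun g _ hg => ?_
      · exact Finset.subset_biUnion_of_mem (fun i => (c i).support) (Finset.mem_univ i)
      · rw [Finsupp.notMem_support_iff.1 hg, zero_smul]
    rw [h2, ← Finset.sum_coe_sort T]
    exact Finset.sum_congr rfl fun g _ => Algebra.smul_def _ _
  rw [h1, Finset.mul_sum, map_sum]
  refine Finset.sum_congr rfl fun g _ => ?_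
  rw [aeval_monomial, Finsupp.prod_fintype _ _ (fun _ => pow_zero _), map_mul, mul_assoc, ← hg g]
  ring

end Pool.Agent.H21bl.RE
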