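import Pool.Agent.H21bl.RE.Ring

/-!
The ring generated by the entire functions without zeros is closed under the extraction of roots.
-/

set_option autoImplicit false

namespace Pool.Agent.H21bl.RE

open Filter Topology Metric Set MvPolynomial Module
open Pool.Agent.Y192.OG Pool.Agent.Y192.KC Pool.Agent.W603.BP Pool.Agent.Y220.KG
open Pool.Agent.H159R3.NV (Ent ev_ne)
open Pool.Agent.Y742.DI Pool.Agent.N754.LT

variable {r : ℕ}

/-- evaluation of Laurent polynomials at units -/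
noncomputable def evE (w : Fin r → Entˣ) : Lau r →ₐ[ℂ] Ent :=
  AddMonoidAlgebra.lift ℂ Ent (Fin r → ℤ)
    { toFun := fun m => ((∏ j, w j ^ (m.toAdd j) : Entˣ) : Ent)
      map_one' := by simp
      map_mul' := fun m m' => by
        rw [← Units.val_mul, ← Finset.prod_mul_distrib]
        congr 1
        exact Finset.prod_congr rfl fun j _ => by rw [toAdd_mul, Pi.add_apply, zpow_add] }

theorem evE_single (w : Fin r → Entˣ) (m : Fin r → ℤ) (c : ℂ) :
    evE w (AddMonoidAlgebra.single m c) = algebraMap ℂ Ent c * ((∏ j, w j ^ m j : Entˣ) : Ent) := by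
  unfold evE
  rw [AddMonoidAlgebra.lift_single, Algebra.smul_def]
  rfl

theorem evE_mem (w : Fin r → Entˣ) (g : Lau r) : evE w g ∈ EP := by
  induction g using AddMonoidAlgebra.induction_linear with
  | zero => rw [map_zero]; exact EP.zero_mem
  | add f g hf hg => rw [map_add]; exact EP.add_mem hf hg
  | single m a =>
    rw [evE_single]
    exact EP.mul_mem (EP.algebraMap_mem a) (unit_mem _)

theorem zpow_val (u : Entˣ) (k : ℤ) (z : ℂ) :
    (((u ^ k : Entˣ) : Ent) : ℂ → ℂ) z = ((u : Ent) : ℂ → ℂ) z ^ k := by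
  have hpow : ∀ (v : Entˣ) (n : ℕ), (((v ^ n : Entˣ) : Ent) : ℂ → ℂ) z =
      ((v : Ent) : ℂ → ℂ) z ^ n := fun v n => by
    rw [Units.val_pow_eq_pow_val]
    rfl
  have hinv : ∀ v : Entˣ, (((v⁻¹ : Entˣ) : Ent) : ℂ → ℂ) z = (((v : Ent) : ℂ → ℂ) z)⁻¹ := fun v => by
    have h1 := congrFun (congrArg Subtype.val (Units.mul_inv v)) z
    have h2 : ((v : Ent) : ℂ → ℂ) z * (((v⁻¹ : Entˣ) : Ent) : ℂ → ℂ) z = 1 := h1
    exact eq_inv_of_mul_eq_one_right h2
  obtain ⟨n, rfl | rfl⟩ := k.eq_nat_or_neg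
  · rw [zpow_natCast, zpow_natCast, hpow]
  · rw [zpow_neg, zpow_neg, zpow_natCast, zpow_natCast, hinv, hpow]

theorem mon_val (w : Fin r → Entˣ) (m : Fin r → ℤ) (z : ℂ) :
    (((∏ j, w j ^ m j : Entˣ) : Ent) : ℂ → ℂ) z = ∏ j, ((w j : Ent) : ℂ → ℂ) z ^ m j := by
  rw [Units.coe_prod, SubmonoidClass.coe_finsetProd, Finset.prod_apply]
  exact Finset.prod_congr rfl fun j _ => zpow_val _ _ _

theorem evE_val (w : Fin r → Entˣ) (g : Lau r) (z : ℂ) :
    (evE w g : ℂ → ℂ) z = lev g (fun j => ((w j : Ent) : ℂ → ℂ) z) := by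
  induction g using AddMonoidAlgebra.induction_linear with
  | zero => rw [map_zero, lev_zero]; rfl
  | add f g hf hg => rw [map_add, lev_add, ← hf, ← hg]; rfl
  | single m a =>
    rw [evE_single, lev_single, ← mon_val]
    rfl

theorem evE_inj {w : Fin r → Entˣ} (hw : Ind w) : Function.Injective (evE w) := by
  classical
  rw [injective_iff_map_eq_zero]
  intro P hP
  let S : Finset (Fin r → ℤ) := P.coeff.support
  let e : Fin S.card ≃ S := S.equivFin.symm
  have h1 := unitE S.card (fun i => ∏ j, w j ^ (e i).1 j) (by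
      intro i j hij c hc
      have h2 : (e i).1 - (e j).1 = 0 := by
        apply hw
        refine ⟨c, ?_⟩
        have h3 : ∏ l, w l ^ (((e i).1 - (e j).1) l) =
            (∏ l, w l ^ (e i).1 l) * (∏ l, w l ^ (e j).1 l)⁻¹ := by
          rw [← Finset.prod_inv_distrib, ← Finset.prod_mul_distrib]
          exact Finset.prod_congr rfl fun l _ => by rw [Pi.sub_apply, zpow_sub]
        rw [h3, Units.val_mul, hc, mul_assoc, Units.mul_inv, mul_one]
      apply hij
      apply e.injective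
      apply Subtype.ext
      exact sub_eq_zero.1 h2) (fun i => P.coeff (e i).1) (by
      have h2 : evE w P = ∑ s ∈ S, algebraMap ℂ Ent (P.coeff s) *
          ((∏ j, w j ^ s j : Entˣ) : Ent) := by
        have h3 : ∑ s ∈ S, AddMonoidAlgebra.single s (P.coeff s) = P :=
          AddMonoidAlgebra.sum_coeff_single P
        conv_lhs => rw [← h3]
        rw [map_sum]
        exact Finset.sum_congr rfl fun s _ => evE_single _ _ _
      rw [hP] at h2
      rw [h2, ← Finset.sum_coe_sort S, ← Equiv.sum_comp e])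
  apply AddMonoidAlgebra.coeff_eq_zero.1
  ext s
  by_contra hs
  have hsS : s ∈ S := Finsupp.mem_support_iff.2 hs
  have h2 := congrFun h1 (e.symm ⟨s, hsS⟩)
  apply hs
  simpa using h2

/-- equal powers -/
theorem pow_eq {x y : Ent} {e : ℕ} (he : 0 < e) (h : x ^ e = y ^ e) : ∃ ζ : Entˣ, x = ζ * y := by
  have hprim : IsPrimitiveRoot (algebraMap ℂ Ent (Complex.exp (2 * Real.pi * Complex.I / e))) e :=
    (Complex.isPrimitiveRoot_exp e he.ne').map_of_injective (algebraMap ℂ Ent).injective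
  have h1 := hprim.pow_sub_pow_eq_prod_sub_mul x y he
  rw [h, sub_self, eq_comm, Finset.prod_eq_zero_iff] at h1
  obtain ⟨ζ, hζ, h2⟩ := h1
  rw [Polynomial.mem_nthRootsFinset he] at hζ
  refine ⟨Units.ofPowEqOne ζ e hζ he.ne', ?_⟩
  rw [Units.val_ofPowEqOne]
  exact sub_eq_zero.1 h2

/-- roots of units -/
theorem unit_root (u : Entˣ) {e : ℕ} (he : 0 < e) : ∃ v : Entˣ, v ^ e = u := by
  obtain ⟨g, hg, hgu⟩ := entire_log (u : Ent).2 (unit_ne u)
  refine ⟨mkU ⟨fun z => Complex.exp (g z / e), (hg.div_const _).cexp⟩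
    fun z => Complex.exp_ne_zero _, ?_⟩
  apply Units.ext
  apply Subtype.ext
  funext z
  rw [Units.val_pow_eq_pow_val, mkU_val, hgu]
  show Complex.exp (g z / e) ^ e = Complex.exp (g z)
  rw [← Complex.exp_nat_mul]
  congr 1
  have : (e : ℂ) ≠ 0 := by exact_mod_cast he.ne'
  field_simp

/-- the ring of Laurent polynomials is a domain -/
theorem lau_prime : (⊥ : Ideal (Lau r)).IsPrime := Ideal.isPrime_bot

theorem root_core (hr : 1 ≤ r) {w : Fin r → Entˣ} (hw : Ind w) {P : Lau r} (hP : P ≠ 0)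
    {h : Ent} {e : ℕ} (he : 0 < e) (hh : h ^ e = evE w P) : h ∈ EP := by
  classical
  have hbot : (⊥ : Ideal (Lau r)).IsPrime := lau_prime
  obtain ⟨K, i1, i2, x, hx⟩ := exists_generic (⊥ : Ideal (Lau r))
  have hx' : ∀ g, ep x g = 0 ↔ g = 0 := fun g => by rw [hx, Ideal.mem_bot]
  obtain ⟨Γ, A, D, S, a, m0, G, hSat, hG, hhom, hj, hcur⟩ := Pool.Agent.Y192.KC.prime_all r 1 K x
    (fun _ => P) (fun _ => e) (fun _ => fun h0 => hP ((hx' P).1 h0))
  have hG0 : G ≠ 0 := fun h0 => hG ((hx' G).2 h0)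
  have hw0 : ∀ j z, ((w j : Ent) : ℂ → ℂ) z ≠ 0 := fun j z => unit_ne (w j) z
  have htor : ∀ z, (tor fun i => UU (fun j => (w j : Ent)) i z) =
      fun j => ((w j : Ent) : ℂ → ℂ) z := by
    intro z
    funext j
    show UU (fun j => (w j : Ent)) j.succ z / UU (fun j => (w j : Ent)) 0 z = _
    rw [UU_zero, div_one, UU_succ]
  have hlev : ∀ (g : Lau r) z, lev g (tor fun i => UU (fun j => (w j : Ent)) i z) =
      (evE w g : ℂ → ℂ) z := fun g z => by rw [htor, ← evE_val]
  have hh0 : h ≠ 0 := by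
    rintro rfl
    rw [zero_pow he.ne'] at hh
    exact hP (evE_inj hw (by rw [← hh, map_zero]))
  -- the hypotheses on the curve
  have hU : HU (fun _ : Fin 1 => P) (fun _ => e) (e * (m0 + 1)) (UU fun j => (w j : Ent)) := by
    refine ⟨UU_diff _, UU_ncz _, fun i => ⟨0, UU_ne _ hw0 i 0⟩, fun i z => ⟨0, ?_⟩, fun _ =>
      Or.inr fun z => ?_, ?_⟩
    · rw [mul_zero]
      exact analyticOrderAt_eq_zero.2 (Or.inr (UU_ne _ hw0 i z))
    · have hmd : md (e * (m0 + 1)) e = e := if_neg he.ne'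
      rw [hmd]
      have h1 : (fun z => lev P (tor fun i => UU (fun j => (w j : Ent)) i z)) =
          (h : ℂ → ℂ) ^ e := by
        funext z
        rw [hlev, ← hh]
        rfl
      rw [h1]
      have hm : MeromorphicAt (h : ℂ → ℂ) z := (h.2.analyticAt z).meromorphicAt
      rw [meromorphicOrderAt_pow hm]
      have hfin : meromorphicOrderAt (h : ℂ → ℂ) z ≠ ⊤ := by
        intro htop
        rw [meromorphicOrderAt_eq_top_iff] at htop
        have h2 := (rpE z).rep_ne h hh0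
        obtain ⟨y, hy1, hy2⟩ := (htop.and h2).exists
        exact hy2 hy1
      obtain ⟨k, hk⟩ := WithTop.ne_top_iff_exists.1 hfin
      refine ⟨k, ?_⟩
      rw [← hk]
      push_cast
      rfl
    · have h1 : ¬ ∃ c : ℂ, ((w ⟨0, hr⟩ : Entˣ) : Ent) = algebraMap ℂ Ent c := by
        rintro ⟨c, hc⟩
        have h2 := hw (Pi.single ⟨0, hr⟩ 1) ⟨c, by
          rw [Finset.prod_eq_single ⟨0, hr⟩]
          · rw [Pi.single_eq_same, zpow_one, hc]
          · intro j _ hj
            rw [Pi.single_eq_of_ne hj, zpow_zero]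
          · intro h
            exact absurd (Finset.mem_univ _) h⟩
        have h3 := congrFun h2 ⟨0, hr⟩
        rw [Pi.single_eq_same] at h3
        exact one_ne_zero h3
      by_contra hcon
      push Not at hcon
      apply h1
      refine ⟨((w ⟨0, hr⟩ : Ent) : ℂ → ℂ) 0, ?_⟩
      apply Subtype.ext
      funext z
      have h2 := hcon z 0 (Fin.succ ⟨0, hr⟩)
      rw [UU_zero, UU_zero, mul_one, mul_one, UU_succ, UU_succ] at h2
      exact h2
  have hM := hcur (e * (m0 + 1)) (by nlinarith) (fun _ _ => Dvd.intro _ rfl)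
    (cu (fun j => (w j : Ent)) hw0) (ecurve_adm hU fun _ => Or.inl rfl)
    (fun g hg => by rw [(hx' g).1 hg, map_zero])
    (fun h0 => by
      apply hG0
      apply evE_inj hw
      rw [map_zero]
      by_contra hne
      have hev : ∀ᶠ u in 𝓝[≠] (0 : ℂ), (evE w G : ℂ → ℂ) u ≠ 0 := (rpE 0).rep_ne _ hne
      obtain ⟨u, hu1, hu2⟩ := (hev.and self_mem_nhdsWithin).exists
      obtain ⟨z, hz1, hz2⟩ := exists_log (show u ≠ 0 from hu2) 1
      apply hu1
      show (evE w G : ℂ → ℂ) u = 0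
      have h3 : z ∈ (cu (fun j => (w j : Ent)) hw0).U := cu_mem _ hw0 hz1
      have h2 : (cu (fun j => (w j : Ent)) hw0).val ((cu (fun j => (w j : Ent)) hw0).ev G) z =
          lev G (tor fun i => UU (fun j => (w j : Ent)) i (Complex.exp z)) := ecurve_val G h3
      rw [h0, val_zero', hlev, hz2] at h2
      exact h2.symm)
  have hΓ : ∀ γ ∈ Γ, γ = 0 := by
    intro γ hγ
    obtain ⟨L, hL⟩ := char_const (hM γ hγ)
    apply hw
    refine ⟨L, ?_⟩
    apply Subtype.ext
    have hcst : ∀ z : ℂ, z ≠ 0 → (((∏ j, w j ^ γ j : Entˣ) : Ent) : ℂ → ℂ) z = L := by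
      intro z hz
      rw [mon_val, ← hL z hz fun i => UU_ne _ hw0 i z, htor]
    have hc1 : Continuous (((∏ j, w j ^ γ j : Entˣ) : Ent) : ℂ → ℂ) :=
      (∏ j, w j ^ γ j : Entˣ).val.2.continuous
    exact Continuous.ext_on (dense_compl_singleton (0 : ℂ)) hc1 continuous_const
      fun z hz => hcst z hz
  obtain ⟨b1, b2, b3, b4, b5, b6⟩ := hj 0
  have hdvd : ∀ T : Lau r, T ∣ G → T ≠ 0 := by
    rintro T ⟨T', hT⟩ h0
    rw [h0, zero_mul] at hT
    exact hG0 hT
  have hcst : ∀ T : Lau r, (∀ m ∈ T.coeff.support, m ∈ Γ) →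
      T = AddMonoidAlgebra.single 0 (T.coeff 0) := by
    intro T hT
    ext m
    rw [AddMonoidAlgebra.coeff_single]
    by_cases hm : m = 0
    · rw [hm, Finsupp.single_eq_same]
    · rw [Finsupp.single_eq_of_ne hm]
      by_contra hne
      exact hm (hΓ m (hT m (Finsupp.mem_support_iff.2 hne)))
  have hc0 : ∀ T : Lau r, T ≠ 0 → (∀ m ∈ T.coeff.support, m ∈ Γ) → T.coeff 0 ≠ 0 := by
    intro T hT0 hT h0
    apply hT0
    rw [hcst T hT, h0, AddMonoidAlgebra.single_zero]
  have hD := hcst _ b1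
  have hA := hcst _ b2
  have hD0 := hc0 _ (hdvd _ b3) b1
  have hA0 := hc0 _ (hdvd _ b4) b2
  have hrel : D 0 * P = A 0 * AddMonoidAlgebra.single (a 0) 1 * S 0 ^ e := by
    rw [← sub_eq_zero, ← hx', map_sub, b6, sub_self]
  have hrel2 : algebraMap ℂ Ent ((D 0).coeff 0) * h ^ e =
      algebraMap ℂ Ent ((A 0).coeff 0) * ((∏ j, w j ^ a 0 j : Entˣ) : Ent) * evE w (S 0) ^ e := by
    have h1 := congrArg (evE w) hrel
    rw [hD, hA, map_mul, map_mul, map_mul, map_pow, evE_single, evE_single, evE_single, ← hh] at h1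
    simpa using h1
  -- the unit
  have hcu : ∀ c : ℂ, c ≠ 0 → ∃ u : Entˣ, (u : Ent) = algebraMap ℂ Ent c := fun c hc =>
    ⟨(Units.mk0 c hc).map (algebraMap ℂ Ent : ℂ →* Ent), rfl⟩
  obtain ⟨u1, hu1⟩ := hcu _ hD0
  obtain ⟨u2, hu2⟩ := hcu _ hA0
  obtain ⟨v, hv⟩ := unit_root (u1⁻¹ * (u2 * ∏ j, w j ^ a 0 j)) he
  have h1 : h ^ e = ((v : Ent) * evE w (S 0)) ^ e := by
    rw [mul_pow, ← Units.val_pow_eq_pow_val, hv, Units.val_mul, Units.val_mul, hu2, mul_assoc,
      ← hrel2, ← hu1, ← mul_assoc, Units.inv_mul, one_mul]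
  obtain ⟨ζ, hζ⟩ := pow_eq he h1
  rw [hζ]
  exact EP.mul_mem (unit_mem ζ) (EP.mul_mem (unit_mem v) (evE_mem w _))

/-- roots of Laurent polynomials in units -/
theorem root_core' {w : Fin r → Entˣ} (hw : Ind w) {P : Lau r} (hP : P ≠ 0)
    {h : Ent} {e : ℕ} (he : 0 < e) (hh : h ^ e = evE w P) : h ∈ EP := by
  classical
  rcases Nat.eq_zero_or_pos r with hr | hr
  · subst hr
    have h1 : P = AddMonoidAlgebra.single 0 (P.coeff 0) := by
      apply AddMonoidAlgebra.ext
      apply Finsupp.ext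
      intro m
      rw [AddMonoidAlgebra.coeff_single, Subsingleton.elim m 0, Finsupp.single_eq_same]
    have h0 : P.coeff 0 ≠ 0 := by
      intro h0
      rw [h0, AddMonoidAlgebra.single_zero] at h1
      exact hP h1
    rw [h1, evE_single] at hh
    refine Algebra.subset_adjoin fun z hz => ?_
    have h2 := congrFun (congrArg Subtype.val hh) z
    have h3 : (h : ℂ → ℂ) z ^ e = P.coeff 0 * (((∏ j, w j ^ (0 : Fin 0 → ℤ) j : Entˣ) : Ent) : ℂ → ℂ) z :=
      h2
    rw [hz, zero_pow he.ne'] at h3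
    exact mul_ne_zero h0 (unit_ne _ z) h3.symm
  · exact root_core hr hw hP he hh

theorem evE_comp (w : Fin r → Entˣ) (p : MvPolynomial (Fin r) ℂ) :
    evE w (aeval (fun j => AddMonoidAlgebra.single (Pi.single j 1 : Fin r → ℤ) (1 : ℂ)) p) =
      aeval (fun j => (w j : Ent)) p := by
  have h1 : ((evE w).comp (aeval fun j =>
      AddMonoidAlgebra.single (Pi.single j 1 : Fin r → ℤ) (1 : ℂ))) =
      aeval (fun j => (w j : Ent)) := by
    apply MvPolynomial.algHom_ext
    intro j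
    rw [AlgHom.comp_apply, aeval_X, aeval_X, evE_single, map_one, one_mul,
      Finset.prod_eq_single j]
    · rw [Pi.single_eq_same, zpow_one]
    · intro i _ hi
      rw [Pi.single_eq_of_ne hi, zpow_zero]
    · intro h
      exact absurd (Finset.mem_univ _) h
  exact DFunLike.congr_fun h1 p

/-- the ring is closed under the extraction of roots -/
theorem ep_root {h : Ent} {e : ℕ} (he : 0 < e) (hh : h ^ e ∈ EP) : h ∈ EP := by
  by_cases h0 : h = 0
  · rw [h0]
    exact EP.zero_mem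
  obtain ⟨r, w, hw, N, p, hp⟩ := ep_rep (fun _ : Unit => h ^ e) fun _ => hh
  have h1 := hp ()
  have h2 : h ^ e = evE w (AddMonoidAlgebra.single (fun _ => -(N : ℤ)) 1 *
      aeval (fun j => AddMonoidAlgebra.single (Pi.single j 1 : Fin r → ℤ) (1 : ℂ)) (p ())) := by
    rw [map_mul, evE_single, evE_comp, ← h1, map_one, one_mul, ← mul_assoc]
    have h3 : ((∏ j, w j ^ (-(N : ℤ)) : Entˣ) : Ent) * (∏ j, (w j : Ent)) ^ N = 1 := by
      rw [← Units.coe_prod, ← Units.val_pow_eq_pow_val, ← Units.val_mul, ← Finset.prod_pow,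
        ← Finset.prod_mul_distrib]
      simp
    rw [h3, one_mul]
  refine root_core' hw (fun h3 => ?_) he h2
  rw [h3, map_zero] at h2
  exact pow_ne_zero e h0 h2

end Pool.Agent.H21bl.RE
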